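import Pool.Agent.H30.FCB.StA
import Pool.Agent.H30.FCB.Basic

/-!
# Module HFAC of project FCB: factors of homogeneous elements are homogeneous
-/

namespace FCB

namespace HFAC

variable {R ι C : Type} {r : ℕ} [CommRing R] [Algebra ℂ R] [Fintype ι] {D : Cox R ι C r}

theorem uniq (h : D.Laws) (s t : (Fin r → ℤ) →₀ R) (hs : ∀ g, s g ∈ D.gr g) (ht : ∀ g, t g ∈ D.gr g)
    (he : (s.sum fun _ x => x) = t.sum fun _ x => x) : s = t := by
  have h1 : s - t = 0 := by
    refine h.indep (s - t) (fun g => ?_) ?_
    · rw [Finsupp.sub_apply]; exact Submodule.sub_mem _ (hs g) (ht g)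
    · rw [Finsupp.sum_sub_index (fun _ _ _ => rfl), he, sub_self]
  exact sub_eq_zero.1 h1

omit [Algebra ℂ R] in
theorem sum_single (g : Fin r → ℤ) (a : R) : ((Finsupp.single g a).sum fun _ x => x) = a := by
  rw [Finsupp.sum_single_index rfl]

theorem single_mem {g : Fin r → ℤ} {a : R} (ha : a ∈ D.gr g) (k : Fin r → ℤ) : (Finsupp.single g a) k ∈ D.gr k := by
  classical
  rw [Finsupp.single_apply]
  split_ifs with h
  · rw [← h]; exact ha
  · exact Submodule.zero_mem _

end HFAC

open HFAC in
theorem hfac : S_HFAC := by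
  classical
  intro R ι C r _ _ _ _ D h g a b hab hne
  obtain ⟨s, hs, hsa⟩ := h.top a
  obtain ⟨t, ht, htb⟩ := h.top b
  have ha : a ≠ 0 := left_ne_zero_of_mul hne
  have hb : b ≠ 0 := right_ne_zero_of_mul hne
  have hs0 : s.support.Nonempty := by
    rw [Finsupp.support_nonempty_iff]; rintro rfl; exact ha (by rw [← hsa]; simp)
  have ht0 : t.support.Nonempty := by
    rw [Finsupp.support_nonempty_iff]; rintro rfl; exact hb (by rw [← htb]; simp)
  -- the components of the product
  set p : (Fin r → ℤ) →₀ R := ∑ i ∈ s.support, ∑ j ∈ t.support, Finsupp.single (i + j) (s i * t j) with hp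
  have hpapp : ∀ k, p k = ∑ i ∈ s.support, ∑ j ∈ t.support, if i + j = k then s i * t j else 0 := by
    intro k
    rw [hp, Finsupp.finsetSum_apply]
    refine Finset.sum_congr rfl fun i _ => ?_
    rw [Finsupp.finsetSum_apply]
    refine Finset.sum_congr rfl fun j _ => ?_
    rw [Finsupp.single_apply]
  have hpm : ∀ k, p k ∈ D.gr k := by
    intro k
    rw [hpapp]
    refine Submodule.sum_mem _ fun i _ => Submodule.sum_mem _ fun j _ => ?_
    split_ifs with hk
    · rw [← hk]; exact D.mul_mem (hs i) (ht j)
    · exact Submodule.zero_mem _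
  have hpsum : (p.sum fun _ x => x) = a * b := by
    have hadd : ∀ u v : (Fin r → ℤ) →₀ R, ((u + v).sum fun _ x => x) = (u.sum fun _ x => x) + v.sum fun _ x => x :=
      fun u v => Finsupp.sum_add_index' (fun _ => rfl) (fun _ _ _ => rfl)
    let φ : ((Fin r → ℤ) →₀ R) →+ R :=
      { toFun := fun u => u.sum fun _ x => x, map_zero' := by simp, map_add' := hadd }
    have h1 : φ p = ∑ i ∈ s.support, ∑ j ∈ t.support, s i * t j := by
      rw [hp, map_sum]
      refine Finset.sum_congr rfl fun i _ => ?_
      rw [map_sum]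
      refine Finset.sum_congr rfl fun j _ => ?_
      exact sum_single (i + j) (s i * t j)
    have h2 : φ p = p.sum fun _ x => x := rfl
    rw [← h2, h1, ← hsa, ← htb, Finsupp.sum, Finsupp.sum, Finset.sum_mul_sum]
  have hpe : p = Finsupp.single g (a * b) :=
    uniq h p _ hpm (single_mem hab) (by rw [hpsum, sum_single])
  -- a unique sum gives a nonzero component
  have key : ∀ i ∈ s.support, ∀ j ∈ t.support, UniqueAdd s.support t.support i j → i + j = g := by
    intro i hi j hj hu
    have h1 : p (i + j) = s i * t j := by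
      rw [hpapp, Finset.sum_eq_single i, Finset.sum_eq_single j]
      · simp
      · intro j' hj' hne'
        rw [if_neg]
        intro he
        exact hne' (hu hi hj' he).2
      · intro hj'; exact absurd hj hj'
      · intro i' hi' hne'
        refine Finset.sum_eq_zero fun j' hj' => ?_
        rw [if_neg]
        intro he
        exact hne' (hu hi' hj' he).1
      · intro hi'; exact absurd hi hi'
    have h2 : s i * t j ≠ 0 := mul_ne_zero (Finsupp.mem_support_iff.1 hi) (Finsupp.mem_support_iff.1 hj)
    rw [hpe, Finsupp.single_apply] at h1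
    by_contra hne'
    rw [if_neg (fun e => hne' e.symm)] at h1
    exact h2 h1.symm
  by_cases hc : 1 < s.support.card * t.support.card
  · exfalso
    obtain ⟨p1, hp1, p2, hp2, hne12, hu1, hu2⟩ := TwoUniqueSums.uniqueAdd_of_one_lt_card hc
    rw [Finset.mem_product] at hp1 hp2
    have e1 := key p1.1 hp1.1 p1.2 hp1.2 hu1
    have e2 := key p2.1 hp2.1 p2.2 hp2.2 hu2
    have := hu1 hp2.1 hp2.2 (by rw [e1, e2])
    exact hne12 (Prod.ext this.1.symm this.2.symm)
  · have hcs : 0 < s.support.card := Finset.card_pos.2 hs0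
    have hct : 0 < t.support.card := Finset.card_pos.2 ht0
    have hs1 : s.support.card = 1 := by nlinarith
    have ht1 : t.support.card = 1 := by nlinarith
    obtain ⟨i, hi⟩ := Finset.card_eq_one.1 hs1
    obtain ⟨j, hj⟩ := Finset.card_eq_one.1 ht1
    refine ⟨i, j, ?_, ?_⟩
    · rw [← hsa, Finsupp.sum, hi, Finset.sum_singleton]; exact hs i
    · rw [← htb, Finsupp.sum, hj, Finset.sum_singleton]; exact ht j

end FCB
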