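import Pool.Agent.H30.FCB.StA
import Pool.Agent.H30.FCB.Basic

/-!
# Module HPRI of project FCB: homogeneous elements are products of homogeneous primes
-/

namespace FCB

theorem hpri (h1 : S_HFAC) : S_HPRI := by
  intro R ι C r _ _ _ _ _ D h g a ha hne
  obtain ⟨s, hs, hsa⟩ := UniqueFactorizationMonoid.exists_prime_factors a hne
  refine ⟨s, fun π hπ => ⟨hs π hπ, ?_⟩, hsa⟩
  have hdvd : π ∣ a := (Multiset.dvd_prod hπ).trans hsa.dvd
  obtain ⟨b, rfl⟩ := hdvd
  obtain ⟨g1, _, hg1, _⟩ := h1 R ι C r D h g π b ha hne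
  exact ⟨g1, hg1⟩

end FCB
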