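import Pool.Agent.H85.FCB.HFAC

/-!
# Module HUNI of project FCB: units and elements of degree zero
-/

namespace FCB

namespace HUNI

variable {R ι C : Type} {r : ℕ} [CommRing R] [Algebra ℂ R] [Fintype ι] {D : Cox R ι C r}

theorem deg_unique (h : D.Laws) (g k : Fin r → ℤ) (a : R) (hg : a ∈ D.gr g) (hk : a ∈ D.gr k) (ha : a ≠ 0) :
    g = k := by
  have h1 := HFAC.uniq h (Finsupp.single g a) (Finsupp.single k a) (HFAC.single_mem hg) (HFAC.single_mem hk)
    (by rw [HFAC.sum_single, HFAC.sum_single])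
  by_contra hne
  have h2 := DFunLike.congr_fun h1 g
  rw [Finsupp.single_eq_same, Finsupp.single_apply, if_neg (fun e => hne e.symm)] at h2
  exact ha h2

/-- a nonzero homogeneous element has a monomial of its degree -/
theorem exists_mono {g : Fin r → ℤ} {a : R} (hg : a ∈ D.gr g) (ha : a ≠ 0) : ∃ n : ι → ℕ, D.wt n = g := by
  by_contra hne
  push Not at hne
  have he : {n | D.wt n = g} = (∅ : Set (ι → ℕ)) := by
    ext n; simp [hne n]
  rw [Cox.gr, he, Set.image_empty, Submodule.span_empty, Submodule.mem_bot] at hg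
  exact ha hg

omit [CommRing R] [Algebra ℂ R] in
theorem phi_wt (φ : (Fin r → ℤ) →+ ℤ) (n : ι → ℕ) : φ (D.wt n) = ∑ j, (n j : ℤ) * φ (D.deg j) := by
  rw [Cox.wt, map_sum]
  refine Finset.sum_congr rfl fun j _ => ?_
  rw [map_zsmul, smul_eq_mul]

omit [CommRing R] [Algebra ℂ R] in
theorem wt_pos (φ : (Fin r → ℤ) →+ ℤ) (hφ : ∀ j, 0 < φ (D.deg j)) (n : ι → ℕ) :
    0 ≤ φ (D.wt n) ∧ (φ (D.wt n) = 0 → n = 0) := by
  rw [phi_wt]
  have h0 : ∀ j ∈ Finset.univ, 0 ≤ (n j : ℤ) * φ (D.deg j) := fun j _ =>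
    mul_nonneg (Int.natCast_nonneg _) (hφ j).le
  refine ⟨Finset.sum_nonneg h0, fun h => ?_⟩
  rw [Finset.sum_eq_zero_iff_of_nonneg h0] at h
  funext j
  have := h j (Finset.mem_univ j)
  rcases mul_eq_zero.1 this with h1 | h1
  · exact_mod_cast h1
  · exact absurd h1 (hφ j).ne'

end HUNI

open HUNI in
theorem huni : S_HUNI := by
  intro R ι C r _ _ _ _ D h
  obtain ⟨φ, hφ⟩ := h.pos
  refine ⟨?_, ?_, fun g k a => deg_unique h g k a⟩
  · intro g a ha hu
    obtain ⟨b, hb⟩ := hu.exists_right_inv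
    have hab : a * b ∈ D.gr 0 := by rw [hb]; exact D.one_mem
    have hne : a * b ≠ 0 := by rw [hb]; exact one_ne_zero
    obtain ⟨g1, k, ha1, hbk⟩ := hfac R ι C r D h 0 a b hab hne
    have hsum : g + k = 0 := deg_unique h _ _ (a * b) (D.mul_mem ha hbk) hab hne
    obtain ⟨n, hn⟩ := exists_mono ha hu.ne_zero
    obtain ⟨m, hm⟩ := exists_mono hbk (right_ne_zero_of_mul hne)
    have e1 := wt_pos φ hφ (D := D) n
    have e2 := wt_pos φ hφ (D := D) m
    rw [hn] at e1
    rw [hm] at e2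
    have e3 : φ g + φ k = 0 := by rw [← map_add, hsum, map_zero]
    have e4 : φ g = 0 := by linarith [e1.1, e2.1]
    have e5 := e1.2 e4
    rw [← hn, e5, D.wt_zero]
  · intro a ha
    have hset : D.mono '' {n | D.wt n = 0} = {1} := by
      ext x
      constructor
      · rintro ⟨n, hn, rfl⟩
        have e1 := wt_pos φ hφ (D := D) n
        have hn' : D.wt n = 0 := hn
        rw [hn', map_zero] at e1
        have := e1.2 rfl
        rw [this, D.mono_zero]; rfl
      · intro hx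
        refine ⟨0, D.wt_zero, ?_⟩
        rw [D.mono_zero]; exact hx.symm
    rw [Cox.gr, hset, Submodule.mem_span_singleton] at ha
    obtain ⟨z, hz⟩ := ha
    exact ⟨z, by rw [← hz, Algebra.algebraMap_eq_smul_one]⟩

end FCB
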